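import Pool.Agent.Helper88_SO.Tools

/-!
# Convex position (SO modules CP4 and CPW) and blind vertices (SO modules BORD and BLIND)
-/

set_option autoImplicit false
set_option linter.unusedSimpArgs false

namespace Pool.Agent.SO.H61

open Pool.Agent.SO

theorem cp4 : Cp4Stmt := by
  intro V P hP Q hQ
  refine ⟨?_, ?_⟩
  · intro x hx y hy z hz w hw h1 h2
    have hxy : x ≠ y := by rintro rfl; rw [ori_self1] at h1; exact lt_irrefl _ h1
    have hxw : x ≠ w := by rintro rfl; rw [ori_self3] at h2; exact lt_irrefl _ h2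
    have hyz : y ≠ z := by rintro rfl; rw [ori_self2] at h1; exact lt_irrefl _ h1
    have hzw : z ≠ w := by rintro rfl; rw [ori_self2] at h2; exact lt_irrefl _ h2
    have hyw : y ≠ w := by
      rintro rfl
      rw [ori_swap] at h2
      linarith
    have e1 : 0 < ori (P x) (P y) (P w) := by
      rcases lt_or_gt_of_ne (hP.ori_ne hxy hyw hxw) with h | h
      · exfalso
        refine hQ y hy z hz w hw x hx ⟨?_, ?_, ?_⟩
        · rw [ori_cyc]; exact h1
        · rw [ori_cyc]; exact h2
        · rw [← ori_cyc (P w) (P y) (P x), ← ori_cyc (P y) (P x) (P w), ori_swap]; linarith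
      · exact h
    refine ⟨e1, ?_⟩
    rcases lt_or_gt_of_ne (hP.ori_ne hyz hzw hyw) with h | h
    · exfalso
      refine hQ x hx y hy w hw z hz ⟨h1, ?_, ?_⟩
      · rw [ori_swap]; linarith
      · rw [← ori_cyc (P w) (P x) (P z)]; exact h2
    · exact h
  · intro x hx y hy z hz w hw hxy hxz hxw hyz hyw hzw
    set a := ori (P x) (P y) (P z) with ha
    set b := ori (P x) (P y) (P w) with hb
    set c := ori (P x) (P z) (P w) with hc
    set d := ori (P y) (P z) (P w) with hd
    have ha0 : a ≠ 0 := hP.ori_ne hxy hyz hxz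
    have hb0 : b ≠ 0 := hP.ori_ne hxy hyw hxw
    have hc0 : c ≠ 0 := hP.ori_ne hxz hzw hxw
    have hd0 : d ≠ 0 := hP.ori_ne hyz hzw hyw
    have C1 := hQ y hy z hz w hw x hx
    have C1' := hQ w hw z hz y hy x hx
    have C2 := hQ x hx w hw z hz y hy
    have C2' := hQ z hz w hw x hx y hy
    have C3 := hQ x hx y hy w hw z hz
    have C3' := hQ w hw y hy x hx z hz
    have C4 := hQ x hx y hy z hz w hw
    have C4' := hQ z hz y hy x hx w hw
    have r1 : ori (P y) (P z) (P x) = a := by rw [ha]; unfold ori; ring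
    have r2 : ori (P z) (P w) (P x) = c := by rw [hc]; unfold ori; ring
    have r3 : ori (P w) (P y) (P x) = -b := by rw [hb]; unfold ori; ring
    have r4 : ori (P w) (P z) (P x) = -c := by rw [hc]; unfold ori; ring
    have r5 : ori (P z) (P y) (P x) = -a := by rw [ha]; unfold ori; ring
    have r6 : ori (P y) (P w) (P x) = b := by rw [hb]; unfold ori; ring
    have r7 : ori (P x) (P w) (P y) = -b := by rw [hb]; unfold ori; ring
    have r8 : ori (P w) (P z) (P y) = -d := by rw [hd]; unfold ori; ring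
    have r9 : ori (P z) (P x) (P y) = a := by rw [ha]; unfold ori; ring
    have r10 : ori (P z) (P w) (P y) = d := by rw [hd]; unfold ori; ring
    have r11 : ori (P w) (P x) (P y) = b := by rw [hb]; unfold ori; ring
    have r12 : ori (P x) (P z) (P y) = -a := by rw [ha]; unfold ori; ring
    have r13 : ori (P y) (P w) (P z) = -d := by rw [hd]; unfold ori; ring
    have r14 : ori (P w) (P x) (P z) = c := by rw [hc]; unfold ori; ring
    have r15 : ori (P w) (P y) (P z) = d := by rw [hd]; unfold ori; ring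
    have r16 : ori (P y) (P x) (P z) = -a := by rw [ha]; unfold ori; ring
    have r17 : ori (P x) (P w) (P z) = -c := by rw [hc]; unfold ori; ring
    have r18 : ori (P z) (P x) (P w) = -c := by rw [hc]; unfold ori; ring
    have r19 : ori (P z) (P y) (P w) = -d := by rw [hd]; unfold ori; ring
    have r20 : ori (P y) (P x) (P w) = -b := by rw [hb]; unfold ori; ring
    simp only [r1, r2, r3, r4, r5, r6, r7, r8, r9, r10, r11, r12, r13, r14, r15, r16, r17, r18,
      r19, r20, ← ha, ← hb, ← hc, ← hd] at C1 C1' C2 C2' C3 C3' C4 C4'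
    simp only [Cross, r1, r2, r3, r4, r5, r6, r7, r8, r9, r10, r11, r12, r13, r14, r15, r16, r17,
      r18, r19, r20, ← ha, ← hb, ← hc, ← hd]
    clear_value a b c d
    clear r1 r2 r3 r4 r5 r6 r7 r8 r9 r10 r11 r12 r13 r14 r15 r16 r17 r18 r19 r20 ha hb hc hd
    simp only [neg_pos] at C1 C1' C2 C2' C3 C3' C4 C4'
    rcases lt_or_gt_of_ne ha0 with h1 | h1 <;> rcases lt_or_gt_of_ne hb0 with h2 | h2 <;>
      rcases lt_or_gt_of_ne hc0 with h3 | h3 <;> rcases lt_or_gt_of_ne hd0 with h4 | h4 <;>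
      first
        | exact absurd ⟨by assumption, by assumption, by assumption⟩ C1
        | exact absurd ⟨by assumption, by assumption, by assumption⟩ C1'
        | exact absurd ⟨by assumption, by assumption, by assumption⟩ C2
        | exact absurd ⟨by assumption, by assumption, by assumption⟩ C2'
        | exact absurd ⟨by assumption, by assumption, by assumption⟩ C3
        | exact absurd ⟨by assumption, by assumption, by assumption⟩ C3'
        | exact absurd ⟨by assumption, by assumption, by assumption⟩ C4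
        | exact absurd ⟨by assumption, by assumption, by assumption⟩ C4'
        | exact Or.inl ⟨by nlinarith, by nlinarith⟩
        | exact Or.inr (Or.inl ⟨by nlinarith, by nlinarith⟩)
        | exact Or.inr (Or.inr ⟨by nlinarith, by nlinarith⟩)

theorem cpw (hQuad : QuadStmt) : CpwStmt := by
  intro V G C P hR Q hQ b hb w hw hbw hadj x hx y hy z hz ⟨h1, h2, h3⟩
  have hxw : x ≠ w := by rintro rfl; rw [ori_self3] at h1; exact lt_irrefl _ h1
  have hyw : y ≠ w := by rintro rfl; rw [ori_self2] at h1; exact lt_irrefl _ h1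
  have hzw : z ≠ w := by rintro rfl; rw [ori_self2] at h2; exact lt_irrefl _ h2
  have hne : ∀ {u}, u ∈ Q → b ≠ u := by rintro u hu rfl; exact hb hu
  have key : ∀ u ∈ Q, ∀ v ∈ Q, u ≠ w → v ≠ w →
      0 < ori (P b) (P w) (P u) * ori (P b) (P w) (P v) := by
    intro u hu v hv huw hvw
    have n1 := hR.gp.ori_ne (hne hw) huw.symm (hne hu)
    have n2 := hR.gp.ori_ne (hne hw) hvw.symm (hne hv)
    by_contra hcon
    have hlt : ori (P b) (P w) (P u) * ori (P b) (P w) (P v) < 0 :=
      lt_of_le_of_ne (not_lt.1 hcon) (mul_ne_zero n1 n2)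
    have := hQuad C _ hR.amb (P b) (hR.mem b) (P u) (hR.mem u) (P w) (hR.mem w) (P v) (hR.mem v)
      (hR.sees (hadj u hu huw)) (hR.sees (hQ u hu w hw huw)) (hR.sees (hQ w hw v hv hvw.symm))
      (hR.sees (hadj v hv hvw)).symm hlt
    exact hbw ((hR.adj_iff (hne hw)).2 this)
  have hxy := key x hx y hy hxw hyw
  have hyz := key y hy z hz hyw hzw
  have hxz := key x hx z hz hxw hzw
  have hc := ori_comb (P b) (P w) (P x) (P y) (P z) (P w)
  rw [ori_self2, mul_zero] at hc
  rcases lt_trichotomy (ori (P b) (P w) (P x)) 0 with hs | hs | hs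
  · have s2 : ori (P b) (P w) (P y) < 0 := by nlinarith
    have s3 : ori (P b) (P w) (P z) < 0 := by nlinarith
    have t1 := mul_neg_of_pos_of_neg h2 hs
    have t2 := mul_neg_of_pos_of_neg h3 s2
    have t3 := mul_neg_of_pos_of_neg h1 s3
    linarith
  · rw [hs, zero_mul] at hxy
    exact lt_irrefl _ hxy
  · have s2 : 0 < ori (P b) (P w) (P y) := by nlinarith
    have s3 : 0 < ori (P b) (P w) (P z) := by nlinarith
    have t1 := mul_pos h2 hs
    have t2 := mul_pos h3 s2
    have t3 := mul_pos h1 s3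
    linarith

theorem bord (hClique : CliqueStmt) (hQuad : QuadStmt) : BordStmt := by
  intro V G C P hR Q hQ b hb ⟨q, hq, hbq⟩
  have hne : ∀ {u}, u ∈ Q → b ≠ u := by rintro u hu rfl; exact hb hu
  refine ⟨?_, ?_⟩
  · intro x hx y hy z hz h1 h2
    have hxz : x ≠ z := by
      rintro rfl
      rw [ori_swap] at h2
      linarith
    rcases lt_or_gt_of_ne (hR.gp.ori_ne (hne hx) hxz (hne hz)) with h | h
    swap
    · exact h
    exfalso
    have hmem : P b ∈ convexHull ℝ ({P x, P y, P z} : Set Pt) := by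
      apply mem_triangle
      · rw [← ori_cyc (P x) (P y) (P b), ← ori_cyc (P y) (P b) (P x)]
        exact h1
      · rw [← ori_cyc (P y) (P z) (P b), ← ori_cyc (P z) (P b) (P y)]
        exact h2
      · rw [← ori_cyc (P z) (P x) (P b), ← ori_cyc (P x) (P b) (P z), ori_swap]
        linarith
    have hsub : convexHull ℝ ({P x, P y, P z} : Set Pt) ⊆ convexHull ℝ (P '' Q) := by
      apply convexHull_mono
      intro p hp
      simp only [Set.mem_insert_iff, Set.mem_singleton_iff] at hp
      rcases hp with rfl | rfl | rfl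
      · exact ⟨x, hx, rfl⟩
      · exact ⟨y, hy, rfl⟩
      · exact ⟨z, hz, rfl⟩
    have hcl := hClique C _ hR.amb (P '' Q) (by
      rintro _ ⟨u, -, rfl⟩
      exact hR.mem u) (by
      rintro _ ⟨u, hu, rfl⟩ _ ⟨v, hv, rfl⟩
      by_cases huv : u = v
      · subst huv
        exact hR.sees_self u
      · exact hR.sees (hQ u hu v hv huv))
    apply hbq
    rw [hR.adj_iff (hne hq)]
    unfold Sees
    rw [Set.eq_empty_iff_forall_notMem] at hcl ⊢
    rintro p ⟨hp1, hp2⟩
    refine hcl p ⟨?_, hp2⟩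
    exact (convex_convexHull ℝ (P '' Q)).segment_subset (hsub hmem)
      (subset_convexHull ℝ _ ⟨q, hq, rfl⟩) hp1
  · intro x hx y hy z hz h1 h2 hbx hbz
    have hxy : x ≠ y := by rintro rfl; rw [ori_self2] at h1; exact lt_irrefl _ h1
    have hyz : y ≠ z := by rintro rfl; rw [ori_self2] at h2; exact lt_irrefl _ h2
    rw [hR.adj_iff (hne hy)]
    refine hQuad C _ hR.amb (P b) (hR.mem b) (P x) (hR.mem x) (P y) (hR.mem y) (P z) (hR.mem z)
      (hR.sees hbx) (hR.sees (hQ x hx y hy hxy)) (hR.sees (hQ y hy z hz hyz))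
      (hR.sees hbz).symm ?_
    rw [ori_swap (P b) (P x) (P y)]
    nlinarith

/-- the algebra behind crossing chords seen from outside -/
theorem cross_sign {b Y Y' u v : Pt} (hc : Cross Y Y' u v) :
    ¬ (0 < ori b Y u ∧ 0 < ori b Y v ∧ 0 < ori b Y' u ∧ 0 < ori b Y' v) ∧
    ¬ (ori b Y u < 0 ∧ ori b Y v < 0 ∧ ori b Y' u < 0 ∧ ori b Y' v < 0) := by
  obtain ⟨h1, h2⟩ := hc
  have e1 : ori Y Y' v * ori b Y u - ori Y Y' u * ori b Y v = ori u v Y * ori b Y Y' := by
    unfold ori; ring
  have e2 : ori Y Y' v * ori b Y' u - ori Y Y' u * ori b Y' v = ori u v Y' * ori b Y Y' := by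
    unfold ori; ring
  have hsq : 0 ≤ ori b Y Y' ^ 2 := sq_nonneg _
  have main : ¬ (0 < (ori u v Y * ori b Y Y') * (ori u v Y' * ori b Y Y')) := by
    intro h
    have : (ori u v Y * ori b Y Y') * (ori u v Y' * ori b Y Y') =
      (ori u v Y * ori u v Y') * ori b Y Y' ^ 2 := by ring
    rw [this] at h
    have := mul_nonpos_of_nonpos_of_nonneg h2.le hsq
    linarith
  rw [← e1, ← e2] at main
  constructor
  · rintro ⟨a1, a2, a3, a4⟩
    apply main
    rcases mul_neg_iff.1 h1 with ⟨s1, s2⟩ | ⟨s1, s2⟩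
    · apply mul_pos_of_neg_of_neg
      · have t1 := mul_neg_of_neg_of_pos s2 a1
        have t2 := mul_pos s1 a2
        linarith
      · have t1 := mul_neg_of_neg_of_pos s2 a3
        have t2 := mul_pos s1 a4
        linarith
    · apply mul_pos
      · have t1 := mul_pos s2 a1
        have t2 := mul_neg_of_neg_of_pos s1 a2
        linarith
      · have t1 := mul_pos s2 a3
        have t2 := mul_neg_of_neg_of_pos s1 a4
        linarith
  · rintro ⟨a1, a2, a3, a4⟩
    apply main
    rcases mul_neg_iff.1 h1 with ⟨s1, s2⟩ | ⟨s1, s2⟩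
    · apply mul_pos
      · have t1 := mul_pos_of_neg_of_neg s2 a1
        have t2 := mul_neg_of_pos_of_neg s1 a2
        linarith
      · have t1 := mul_pos_of_neg_of_neg s2 a3
        have t2 := mul_neg_of_pos_of_neg s1 a4
        linarith
    · apply mul_pos_of_neg_of_neg
      · have t1 := mul_neg_of_pos_of_neg s2 a1
        have t2 := mul_pos_of_neg_of_neg s1 a2
        linarith
      · have t1 := mul_neg_of_pos_of_neg s2 a3
        have t2 := mul_pos_of_neg_of_neg s1 a4
        linarith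

theorem blind (hBord : BordStmt) : BlindStmt := by
  intro V G C P hR Q hQ b hb y hy hcr
  have hne : ∀ {u}, u ∈ Q → b ≠ u := by rintro u hu rfl; exact hb hu
  obtain ⟨-, hB⟩ := hBord V G C P hR Q hQ b hb ⟨y 0, (hy 0).1, (hy 0).2⟩
  have hsgn : ∀ i, (∀ u ∈ Q, G.Adj b u → 0 < ori (P b) (P (y i)) (P u)) ∨
      (∀ u ∈ Q, G.Adj b u → ori (P b) (P (y i)) (P u) < 0) := by
    intro i
    by_contra hcon
    push Not at hcon
    obtain ⟨⟨u, hu, hbu, hu0⟩, ⟨v, hv, hbv, hv0⟩⟩ := hcon
    have nu : y i ≠ u := by rintro rfl; exact (hy i).2 hbu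
    have nv : y i ≠ v := by rintro rfl; exact (hy i).2 hbv
    have h1 : 0 < ori (P b) (P u) (P (y i)) := by
      rw [ori_swap]
      have := lt_of_le_of_ne hu0 (hR.gp.ori_ne (hne (hy i).1) nu (hne hu))
      linarith
    have h2 : 0 < ori (P b) (P (y i)) (P v) :=
      lt_of_le_of_ne hv0 (hR.gp.ori_ne (hne (hy i).1) nv (hne hv)).symm
    exact (hy i).2 (hB u hu (y i) (hy i).1 v hv h1 h2 hbu hbv)
  have hpp : ∀ i k, i ≠ k → (∀ u ∈ Q, G.Adj b u → 0 < ori (P b) (P (y i)) (P u)) →
      (∀ u ∈ Q, G.Adj b u → 0 < ori (P b) (P (y k)) (P u)) → False := by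
    intro i k hik h1 h2
    obtain ⟨u, hu, v, hv, hbu, hbv, hc⟩ := hcr i k hik
    exact (cross_sign (b := P b) hc).1 ⟨h1 u hu hbu, h1 v hv hbv, h2 u hu hbu, h2 v hv hbv⟩
  have hnn : ∀ i k, i ≠ k → (∀ u ∈ Q, G.Adj b u → ori (P b) (P (y i)) (P u) < 0) →
      (∀ u ∈ Q, G.Adj b u → ori (P b) (P (y k)) (P u) < 0) → False := by
    intro i k hik h1 h2
    obtain ⟨u, hu, v, hv, hbu, hbv, hc⟩ := hcr i k hik
    exact (cross_sign (b := P b) hc).2 ⟨h1 u hu hbu, h1 v hv hbv, h2 u hu hbu, h2 v hv hbv⟩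
  rcases hsgn 0 with s0 | s0 <;> rcases hsgn 1 with s1 | s1 <;> rcases hsgn 2 with s2 | s2
  · exact hpp 0 1 (by decide) s0 s1
  · exact hpp 0 1 (by decide) s0 s1
  · exact hpp 0 2 (by decide) s0 s2
  · exact hnn 1 2 (by decide) s1 s2
  · exact hpp 1 2 (by decide) s1 s2
  · exact hnn 0 2 (by decide) s0 s2
  · exact hnn 0 1 (by decide) s0 s1
  · exact hnn 0 1 (by decide) s0 s1

end Pool.Agent.SO.H61
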