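import Pool.Agent.Helper61_SO.Cp4

/-!
# SO modules DOOR and HELP
-/

set_option autoImplicit false

namespace Pool.Agent.SO.H61

open Pool.Agent.SO

theorem door_aux (hCp4 : Cp4Stmt) (hBlind : BlindStmt) {V : Type} {G : SimpleGraph V}
    {C : Set Pt} {P : V → Pt} (hR : Rep C G P) {d1 d2 : V} {z b : Fin 5 → V}
    (hz : Function.Injective z) (hd : d1 ≠ d2) (hzd : ∀ i, z i ≠ d1 ∧ z i ≠ d2)
    (hQ : ∀ p ∈ ({d1, d2} : Set V) ∪ Set.range z, ∀ q ∈ ({d1, d2} : Set V) ∪ Set.range z,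
        p ≠ q → G.Adj p q)
    (hCP : CP P (({d1, d2} : Set V) ∪ Set.range z))
    (hb : ∀ i, b i ∉ ({d1, d2} : Set V) ∪ Set.range z)
    (hbv : ∀ i, G.Adj (b i) d1 ∧ G.Adj (b i) d2 ∧ G.Adj (b i) (z i))
    (hbn : ∀ i k, i ≠ k → ¬ G.Adj (b i) (z k)) {i j k l : Fin 5} (hij : i ≠ j) (hik : i ≠ k)
    (hjk : j ≠ k) (hi : 0 < ori (P d1) (P d2) (P (z i))) (hj : 0 < ori (P d1) (P d2) (P (z j)))
    (hk : 0 < ori (P d1) (P d2) (P (z k))) (hl : ori (P d1) (P d2) (P (z l)) < 0) : False := by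
  obtain ⟨hA, -⟩ := hCp4 V P hR.gp _ hCP
  have m1 : d1 ∈ ({d1, d2} : Set V) ∪ Set.range z := by simp
  have m2 : d2 ∈ ({d1, d2} : Set V) ∪ Set.range z := by simp
  have mz : ∀ i, z i ∈ ({d1, d2} : Set V) ∪ Set.range z := fun i => Or.inr ⟨i, rfl⟩
  -- the core with three sorted points
  have core : ∀ a c e : Fin 5, a ≠ c → c ≠ e → a ≠ e → 0 < ori (P d1) (P d2) (P (z a)) →
      0 < ori (P d1) (P d2) (P (z c)) → 0 < ori (P d1) (P d2) (P (z e)) →
      0 < ori (P d1) (P (z a)) (P (z c)) → 0 < ori (P d1) (P (z c)) (P (z e)) → False := by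
    intro a c e hac hce hae ha hc he h1 h2
    have hlc : l ≠ c := by rintro rfl; linarith
    have hla : l ≠ a := by rintro rfl; linarith
    have hle : l ≠ e := by rintro rfl; linarith
    obtain ⟨h3, h4⟩ := hA d1 m1 (z a) (mz a) (z c) (mz c) (z e) (mz e) h1 h2
    have side : ∀ f : Fin 5, 0 < ori (P d1) (P d2) (P (z f)) →
        Cross (P (z f)) (P (z l)) (P d1) (P d2) := by
      intro f hf
      have h5 : 0 < ori (P d1) (P (z l)) (P d2) := by rw [ori_swap]; linarith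
      obtain ⟨h6, h7⟩ := hA d1 m1 (z l) (mz l) d2 m2 (z f) (mz f) h5 hf
      refine ⟨?_, ?_⟩
      · have e1 : ori (P (z f)) (P (z l)) (P d1) = -ori (P d1) (P (z l)) (P (z f)) := by
          unfold ori; ring
        have e2 : ori (P (z f)) (P (z l)) (P d2) = ori (P (z l)) (P d2) (P (z f)) := by
          unfold ori; ring
        rw [e1, e2]
        nlinarith
      · nlinarith
    refine hBlind V G C P hR _ hQ (b c) (hb c) ![z a, z e, z l] ?_ ?_
    · intro i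
      fin_cases i
      · exact ⟨mz a, hbn c a hac.symm⟩
      · exact ⟨mz e, hbn c e hce⟩
      · exact ⟨mz l, hbn c l hlc.symm⟩
    · have hacross : Cross (P (z a)) (P (z e)) (P (z c)) (P d1) := by
        refine ⟨?_, ?_⟩
        · have e1 : ori (P (z a)) (P (z e)) (P (z c)) = -ori (P (z a)) (P (z c)) (P (z e)) := by
            unfold ori; ring
          have e2 : ori (P (z a)) (P (z e)) (P d1) = ori (P d1) (P (z a)) (P (z e)) := by
            unfold ori; ring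
          rw [e1, e2]
          nlinarith
        · have e1 : ori (P (z c)) (P d1) (P (z a)) = ori (P d1) (P (z a)) (P (z c)) := by
            unfold ori; ring
          have e2 : ori (P (z c)) (P d1) (P (z e)) = -ori (P d1) (P (z c)) (P (z e)) := by
            unfold ori; ring
          rw [e1, e2]
          nlinarith
      have csymm : ∀ {p q r s : Pt}, Cross p q r s → Cross q p r s := by
        rintro p q r s ⟨t1, t2⟩
        refine ⟨?_, ?_⟩
        · have e1 : ori q p r = -ori p q r := by unfold ori; ring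
          have e2 : ori q p s = -ori p q s := by unfold ori; ring
          rw [e1, e2]
          nlinarith
        · nlinarith
      have r1 : ∃ u ∈ ({d1, d2} : Set V) ∪ Set.range z, ∃ v ∈ ({d1, d2} : Set V) ∪ Set.range z,
          G.Adj (b c) u ∧ G.Adj (b c) v ∧ Cross (P (z a)) (P (z e)) (P u) (P v) :=
        ⟨z c, mz c, d1, m1, (hbv c).2.2, (hbv c).1, hacross⟩
      have r2 : ∀ f : Fin 5, 0 < ori (P d1) (P d2) (P (z f)) →
          ∃ u ∈ ({d1, d2} : Set V) ∪ Set.range z, ∃ v ∈ ({d1, d2} : Set V) ∪ Set.range z,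
          G.Adj (b c) u ∧ G.Adj (b c) v ∧ Cross (P (z f)) (P (z l)) (P u) (P v) :=
        fun f hf => ⟨d1, m1, d2, m2, (hbv c).1, (hbv c).2.1, side f hf⟩
      have r1' : ∃ u ∈ ({d1, d2} : Set V) ∪ Set.range z, ∃ v ∈ ({d1, d2} : Set V) ∪ Set.range z,
          G.Adj (b c) u ∧ G.Adj (b c) v ∧ Cross (P (z e)) (P (z a)) (P u) (P v) := by
        obtain ⟨u, hu, v, hv, s1, s2, s3⟩ := r1
        exact ⟨u, hu, v, hv, s1, s2, csymm s3⟩
      have r2' : ∀ f : Fin 5, 0 < ori (P d1) (P d2) (P (z f)) →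
          ∃ u ∈ ({d1, d2} : Set V) ∪ Set.range z, ∃ v ∈ ({d1, d2} : Set V) ∪ Set.range z,
          G.Adj (b c) u ∧ G.Adj (b c) v ∧ Cross (P (z l)) (P (z f)) (P u) (P v) := by
        intro f hf
        obtain ⟨u, hu, v, hv, s1, s2, s3⟩ := r2 f hf
        exact ⟨u, hu, v, hv, s1, s2, csymm s3⟩
      intro i k hik
      fin_cases i <;> fin_cases k
      · exact absurd rfl hik
      · exact r1
      · exact r2 a ha
      · exact r1'
      · exact absurd rfl hik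
      · exact r2 e he
      · exact r2' a ha
      · exact r2' e he
      · exact absurd rfl hik
  have nz : ∀ a c : Fin 5, a ≠ c → ori (P d1) (P (z a)) (P (z c)) ≠ 0 := fun a c hac =>
    hR.gp.ori_ne (hzd a).1.symm (fun h => hac (hz h)) (hzd c).1.symm
  have sw : ∀ a c : Fin 5, ori (P d1) (P (z a)) (P (z c)) < 0 →
      0 < ori (P d1) (P (z c)) (P (z a)) := by
    intro a c h
    rw [ori_swap]
    linarith
  rcases lt_or_gt_of_ne (nz i j hij) with h1 | h1 <;> rcases lt_or_gt_of_ne (nz j k hjk) with h2 | h2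
  · exact core k j i hjk.symm hij.symm hik.symm hk hj hi (sw _ _ h2) (sw _ _ h1)
  · rcases lt_or_gt_of_ne (nz i k hik) with h3 | h3
    · exact core j k i hjk hik.symm hij.symm hj hk hi h2 (sw _ _ h3)
    · exact core j i k hij.symm hik hjk hj hi hk (sw _ _ h1) h3
  · rcases lt_or_gt_of_ne (nz i k hik) with h3 | h3
    · exact core k i j hik.symm hij hjk.symm hk hi hj (sw _ _ h3) h1
    · exact core i k j hik hjk.symm hij hi hk hj h3 (sw _ _ h2)
  · exact core i j k hij hjk hik hi hj hk h1 h2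

theorem door_pigeon (f : Fin 5 → Prop) {a c : Fin 5} (ha : f a) (hc : ¬ f c) :
    (∃ i j k, i ≠ j ∧ i ≠ k ∧ j ≠ k ∧ f i ∧ f j ∧ f k) ∨
    (∃ i j k, i ≠ j ∧ i ≠ k ∧ j ≠ k ∧ ¬ f i ∧ ¬ f j ∧ ¬ f k) := by
  classical
  have h : (Finset.univ.filter f).card + (Finset.univ.filter fun i => ¬ f i).card = 5 := by
    rw [Finset.card_filter_add_card_filter_not]
    simp
  rcases lt_or_ge 2 (Finset.univ.filter f).card with h1 | h1
  · left
    obtain ⟨i, j, k, hi, hj, hk, h2, h3, h4⟩ := Finset.two_lt_card_iff.1 h1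
    exact ⟨i, j, k, h2, h3, h4, by simpa using hi, by simpa using hj, by simpa using hk⟩
  · right
    have h1' : 2 < (Finset.univ.filter fun i => ¬ f i).card := by omega
    obtain ⟨i, j, k, hi, hj, hk, h2, h3, h4⟩ := Finset.two_lt_card_iff.1 h1'
    exact ⟨i, j, k, h2, h3, h4, by simpa using hi, by simpa using hj, by simpa using hk⟩

theorem door (hCp4 : Cp4Stmt) (hBlind : BlindStmt) : DoorStmt := by
  intro V G C P hR d1 d2 z b hz hd hzd hQ hCP hb hbv hbn i k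
  have nz : ∀ a : Fin 5, ori (P d1) (P d2) (P (z a)) ≠ 0 := fun a =>
    hR.gp.ori_ne hd (hzd a).2.symm (hzd a).1.symm
  by_contra hcon
  have hlt : ori (P d1) (P d2) (P (z i)) * ori (P d1) (P d2) (P (z k)) < 0 :=
    lt_of_le_of_ne (not_lt.1 hcon) (mul_ne_zero (nz i) (nz k))
  have hset : ({d1, d2} : Set V) = {d2, d1} := Set.pair_comm _ _
  obtain ⟨a, c, ha, hc⟩ : ∃ a c : Fin 5, 0 < ori (P d1) (P d2) (P (z a)) ∧
      ori (P d1) (P d2) (P (z c)) < 0 := by
    rcases mul_neg_iff.1 hlt with ⟨h1, h2⟩ | ⟨h1, h2⟩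
    · exact ⟨i, k, h1, h2⟩
    · exact ⟨k, i, h2, h1⟩
  rcases door_pigeon (fun e => 0 < ori (P d1) (P d2) (P (z e))) ha (not_lt.2 hc.le) with
    ⟨e, f, g, h1, h2, h3, h4, h5, h6⟩ | ⟨e, f, g, h1, h2, h3, h4, h5, h6⟩
  · exact door_aux hCp4 hBlind hR hz hd hzd hQ hCP hb hbv hbn h1 h2 h3 h4 h5 h6 hc
  · have neg : ∀ e : Fin 5, ¬ 0 < ori (P d1) (P d2) (P (z e)) →
        0 < ori (P d2) (P d1) (P (z e)) := by
      intro e he
      have e1 : ori (P d2) (P d1) (P (z e)) = -ori (P d1) (P d2) (P (z e)) := by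
        unfold ori; ring
      rw [e1]
      have := lt_of_le_of_ne (not_lt.1 he) (nz e)
      linarith
    have ha' : ori (P d2) (P d1) (P (z a)) < 0 := by
      have e1 : ori (P d2) (P d1) (P (z a)) = -ori (P d1) (P d2) (P (z a)) := by
        unfold ori; ring
      rw [e1]
      linarith
    rw [hset] at hQ hCP
    have hb' : ∀ i, b i ∉ ({d2, d1} : Set V) ∪ Set.range z := by rw [← hset]; exact hb
    exact door_aux hCp4 hBlind hR hz hd.symm (fun i => ⟨(hzd i).2, (hzd i).1⟩) hQ hCP hb'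
      (fun i => ⟨(hbv i).2.1, (hbv i).1, (hbv i).2.2⟩) hbn h1 h2 h3 (neg e h4) (neg f h5)
      (neg g h6) ha'

theorem help_aux (hCp4 : Cp4Stmt) (hBlind : BlindStmt) {V : Type} {G : SimpleGraph V}
    {C : Set Pt} {P : V → Pt} (hR : Rep C G P) {d1 d2 x y z w h1 h2 : V}
    (hnd : [d1, d2, x, y, z, w, h1, h2].Nodup)
    (hQ : ∀ p ∈ ({d1, d2, x, y, z, w} : Set V), ∀ q ∈ ({d1, d2, x, y, z, w} : Set V),
        p ≠ q → G.Adj p q)
    (hCP : CP P {d1, d2, x, y, z, w})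
    (px : 0 < ori (P d1) (P d2) (P x)) (py : 0 < ori (P d1) (P d2) (P y))
    (pz : 0 < ori (P d1) (P d2) (P z)) (pw : 0 < ori (P d1) (P d2) (P w))
    (a1 : G.Adj h1 d1) (a2 : G.Adj h1 x) (a3 : G.Adj h1 y) (a4 : ¬ G.Adj h1 d2)
    (a5 : ¬ G.Adj h1 z) (a6 : ¬ G.Adj h1 w) (b1 : G.Adj h2 d2) (b2 : G.Adj h2 x)
    (b3 : G.Adj h2 y) (b4 : ¬ G.Adj h2 d1) (b5 : ¬ G.Adj h2 z) (b6 : ¬ G.Adj h2 w)
    (hc : Cross (P x) (P y) (P z) (P w)) : False := by
  set Q : Set V := {d1, d2, x, y, z, w} with hQdef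
  obtain ⟨hA, -⟩ := hCp4 V P hR.gp _ hCP
  have m1 : d1 ∈ Q := by simp [hQdef]
  have m2 : d2 ∈ Q := by simp [hQdef]
  have mx : x ∈ Q := by simp [hQdef]
  have my : y ∈ Q := by simp [hQdef]
  have mz : z ∈ Q := by simp [hQdef]
  have mw : w ∈ Q := by simp [hQdef]
  simp only [List.nodup_cons, List.mem_cons, List.not_mem_nil, or_false, not_or,
    List.nodup_nil, and_true, not_false_eq_true] at hnd
  obtain ⟨⟨n12, n1x, n1y, n1z, n1w, n1h1, n1h2⟩, ⟨n2x, n2y, n2z, n2w, n2h1, n2h2⟩,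
    ⟨nxy, nxz, nxw, nxh1, nxh2⟩, ⟨nyz, nyw, nyh1, nyh2⟩, ⟨nzw, nzh1, nzh2⟩, ⟨nwh1, nwh2⟩, nh⟩ := hnd
  have hh1 : h1 ∉ Q := by
    simp only [hQdef, Set.mem_insert_iff, Set.mem_singleton_iff, not_or]
    exact ⟨Ne.symm n1h1, Ne.symm n2h1, Ne.symm nxh1, Ne.symm nyh1, Ne.symm nzh1, Ne.symm nwh1⟩
  have hh2 : h2 ∉ Q := by
    simp only [hQdef, Set.mem_insert_iff, Set.mem_singleton_iff, not_or]
    exact ⟨Ne.symm n1h2, Ne.symm n2h2, Ne.symm nxh2, Ne.symm nyh2, Ne.symm nzh2, Ne.symm nwh2⟩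
  have csymm : ∀ {p q r s : Pt}, Cross p q r s → Cross q p r s := by
    rintro p q r s ⟨t1, t2⟩
    refine ⟨?_, ?_⟩
    · have e1 : ori q p r = -ori p q r := by unfold ori; ring
      have e2 : ori q p s = -ori p q s := by unfold ori; ring
      rw [e1, e2]
      nlinarith
    · nlinarith
  have cflip : ∀ {p q r s : Pt}, Cross p q r s → Cross r s p q := by
    rintro p q r s ⟨t1, t2⟩
    exact ⟨t2, t1⟩
  -- generic blind argument
  have gen : ∀ (h d : V), h ∉ Q → d ∈ Q → ¬ G.Adj h d → ¬ G.Adj h z → ¬ G.Adj h w →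
      G.Adj h x → G.Adj h y →
      (∃ u ∈ Q, ∃ v ∈ Q, G.Adj h u ∧ G.Adj h v ∧ Cross (P d) (P z) (P u) (P v)) →
      (∃ u ∈ Q, ∃ v ∈ Q, G.Adj h u ∧ G.Adj h v ∧ Cross (P d) (P w) (P u) (P v)) → False := by
    intro h d hh hd k1 k2 k3 k4 k5 e1 e2
    have e3 : ∃ u ∈ Q, ∃ v ∈ Q, G.Adj h u ∧ G.Adj h v ∧ Cross (P z) (P w) (P u) (P v) :=
      ⟨x, mx, y, my, k4, k5, cflip hc⟩
    have swp : ∀ {p q : V}, (∃ u ∈ Q, ∃ v ∈ Q, G.Adj h u ∧ G.Adj h v ∧
        Cross (P p) (P q) (P u) (P v)) → ∃ u ∈ Q, ∃ v ∈ Q, G.Adj h u ∧ G.Adj h v ∧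
        Cross (P q) (P p) (P u) (P v) := by
      rintro p q ⟨u, hu, v, hv, s1, s2, s3⟩
      exact ⟨u, hu, v, hv, s1, s2, csymm s3⟩
    refine hBlind V G C P hR Q hQ h hh ![d, z, w] ?_ ?_
    · intro i
      fin_cases i
      · exact ⟨hd, k1⟩
      · exact ⟨mz, k2⟩
      · exact ⟨mw, k3⟩
    · intro i k hik
      fin_cases i <;> fin_cases k
      · exact absurd rfl hik
      · exact e1
      · exact e2
      · exact swp e1
      · exact absurd rfl hik
      · exact e3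
      · exact swp e2
      · exact swp e3
      · exact absurd rfl hik
  -- a first point
  have first : ∀ f ∈ Q, G.Adj h1 f → 0 < ori (P d1) (P d2) (P f) → 0 < ori (P d1) (P f) (P z) →
      0 < ori (P d1) (P f) (P w) → False := by
    intro f hf hadj pf k1 k2
    have aux : ∀ g ∈ Q, 0 < ori (P d1) (P d2) (P g) → 0 < ori (P d1) (P f) (P g) →
        Cross (P d2) (P g) (P d1) (P f) := by
      intro g hg pg k
      obtain ⟨t1, t2⟩ := hA d1 m1 d2 m2 f hf g hg pf k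
      refine ⟨?_, ?_⟩
      · have e1 : ori (P d2) (P g) (P d1) = ori (P d1) (P d2) (P g) := by unfold ori; ring
        have e2 : ori (P d2) (P g) (P f) = -ori (P d2) (P f) (P g) := by unfold ori; ring
        rw [e1, e2]
        nlinarith
      · have e1 : ori (P d1) (P f) (P d2) = -ori (P d1) (P d2) (P f) := by unfold ori; ring
        rw [e1]
        nlinarith
    exact gen h1 d2 hh1 m2 a4 a5 a6 a2 a3 ⟨d1, m1, f, hf, a1, hadj, aux z mz pz k1⟩
      ⟨d1, m1, f, hf, a1, hadj, aux w mw pw k2⟩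
  have last : ∀ l ∈ Q, G.Adj h2 l → 0 < ori (P d1) (P d2) (P l) → 0 < ori (P d1) (P z) (P l) →
      0 < ori (P d1) (P w) (P l) → False := by
    intro l hl hadj pl k1 k2
    have aux : ∀ g ∈ Q, 0 < ori (P d1) (P d2) (P g) → 0 < ori (P d1) (P g) (P l) →
        Cross (P d1) (P g) (P d2) (P l) := by
      intro g hg pg k
      obtain ⟨t1, t2⟩ := hA d1 m1 d2 m2 g hg l hl pg k
      refine ⟨?_, ?_⟩
      · have e1 : ori (P d1) (P g) (P d2) = -ori (P d1) (P d2) (P g) := by unfold ori; ring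
        rw [e1]
        nlinarith
      · have e1 : ori (P d2) (P l) (P d1) = ori (P d1) (P d2) (P l) := by unfold ori; ring
        have e2 : ori (P d2) (P l) (P g) = -ori (P d2) (P g) (P l) := by unfold ori; ring
        rw [e1, e2]
        nlinarith
    exact gen h2 d1 hh2 m1 b4 b5 b6 b2 b3 ⟨d2, m2, l, hl, b1, hadj, aux z mz pz k1⟩
      ⟨d2, m2, l, hl, b1, hadj, aux w mw pw k2⟩
  -- both x and y lie between z and w
  have nzx := hR.gp.ori_ne n1z (Ne.symm nxz) n1x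
  have nwx := hR.gp.ori_ne n1w (Ne.symm nxw) n1x
  have nzy := hR.gp.ori_ne n1z (Ne.symm nyz) n1y
  have nwy := hR.gp.ori_ne n1w (Ne.symm nyw) n1y
  have sw : ∀ {p q : Pt}, ori (P d1) p q < 0 → 0 < ori (P d1) q p := by
    intro p q h
    rw [ori_swap]
    linarith
  have hx : (0 < ori (P d1) (P z) (P x) ∧ 0 < ori (P d1) (P x) (P w)) ∨
      (0 < ori (P d1) (P w) (P x) ∧ 0 < ori (P d1) (P x) (P z)) := by
    rcases lt_or_gt_of_ne nzx with s1 | s1 <;> rcases lt_or_gt_of_ne nwx with s2 | s2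
    · exact (first x mx a2 px (sw s1) (sw s2)).elim
    · exact Or.inr ⟨s2, sw s1⟩
    · exact Or.inl ⟨s1, sw s2⟩
    · exact (last x mx b2 px s1 s2).elim
  have hy : (0 < ori (P d1) (P z) (P y) ∧ 0 < ori (P d1) (P y) (P w)) ∨
      (0 < ori (P d1) (P w) (P y) ∧ 0 < ori (P d1) (P y) (P z)) := by
    rcases lt_or_gt_of_ne nzy with s1 | s1 <;> rcases lt_or_gt_of_ne nwy with s2 | s2
    · exact (first y my a3 py (sw s1) (sw s2)).elim
    · exact Or.inr ⟨s2, sw s1⟩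
    · exact Or.inl ⟨s1, sw s2⟩
    · exact (last y my b3 py s1 s2).elim
  obtain ⟨-, hc2⟩ := hc
  rcases hx with ⟨s1, s2⟩ | ⟨s1, s2⟩ <;> rcases hy with ⟨s3, s4⟩ | ⟨s3, s4⟩
  · obtain ⟨-, t1⟩ := hA d1 m1 z mz x mx w mw s1 s2
    obtain ⟨-, t2⟩ := hA d1 m1 z mz y my w mw s3 s4
    have e1 : ori (P z) (P w) (P x) = -ori (P z) (P x) (P w) := by unfold ori; ring
    have e2 : ori (P z) (P w) (P y) = -ori (P z) (P y) (P w) := by unfold ori; ring
    rw [e1, e2] at hc2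
    nlinarith
  · obtain ⟨t1, -⟩ := hA d1 m1 z mz x mx w mw s1 s2
    obtain ⟨t2, -⟩ := hA d1 m1 w mw y my z mz s3 s4
    rw [ori_swap] at t2
    linarith
  · obtain ⟨t1, -⟩ := hA d1 m1 w mw x mx z mz s1 s2
    obtain ⟨t2, -⟩ := hA d1 m1 z mz y my w mw s3 s4
    rw [ori_swap] at t2
    linarith
  · obtain ⟨-, t1⟩ := hA d1 m1 w mw x mx z mz s1 s2
    obtain ⟨-, t2⟩ := hA d1 m1 w mw y my z mz s3 s4
    have e1 : ori (P z) (P w) (P x) = ori (P w) (P x) (P z) := by unfold ori; ring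
    have e2 : ori (P z) (P w) (P y) = ori (P w) (P y) (P z) := by unfold ori; ring
    rw [e1, e2] at hc2
    nlinarith

theorem help (hCp4 : Cp4Stmt) (hBlind : BlindStmt) : HelpStmt := by
  intro V G C P hR d1 d2 x y z w h1 h2 hnd hQ hCP hside a1 a2 a3 a4 a5 a6 b1 b2 b3 b4 b5 b6 hc
  have hs : ∀ p ∈ ({x, y, z, w} : Set V),
      0 < ori (P d1) (P d2) (P x) * ori (P d1) (P d2) (P p) := fun p hp =>
    hside x (by simp) p hp
  have sx := hs x (by simp)
  have sy := hs y (by simp)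
  have sz := hs z (by simp)
  have sw := hs w (by simp)
  rcases lt_trichotomy (ori (P d1) (P d2) (P x)) 0 with h | h | h
  · -- swap
    have hset : ({d1, d2, x, y, z, w} : Set V) = {d2, d1, x, y, z, w} := Set.insert_comm _ _ _
    have e : ∀ p : Pt, ori (P d2) (P d1) p = -ori (P d1) (P d2) p := by
      intro p; unfold ori; ring
    have hnd' : [d2, d1, x, y, z, w, h2, h1].Nodup := by
      simp only [List.nodup_cons, List.mem_cons, List.not_mem_nil, or_false, not_or,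
        List.nodup_nil, and_true, not_false_eq_true] at hnd ⊢
      grind
    rw [hset] at hQ hCP
    refine help_aux hCp4 hBlind hR hnd' hQ hCP ?_ ?_ ?_ ?_ b1 b2 b3 b4 b5 b6 a1 a2 a3 a4 a5 a6 hc
    · rw [e]; linarith
    · rw [e]; nlinarith
    · rw [e]; nlinarith
    · rw [e]; nlinarith
  · rw [h, zero_mul] at sx
    exact lt_irrefl _ sx
  · refine help_aux hCp4 hBlind hR hnd hQ hCP h ?_ ?_ ?_ a1 a2 a3 a4 a5 a6 b1 b2 b3 b4 b5 b6 hc
    · nlinarith
    · nlinarith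
    · nlinarith

end Pool.Agent.SO.H61
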